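import Pool.Agent.Lib.helper20.AssocHomog

namespace Pool.Agent.Results.MP_3d7de8_lc.Nilpotent

open Pool.Agent.Lib.helper20.AlgHomog

universe u

/-- `InPow K A k a` says that `a` lies in the power `A^k`: the smallest family of subspaces with
`A^1 = A` and `A^i A^j ⊆ A^(i+j)`. -/
inductive InPow (K A : Type u) [Field K] [NonUnitalRing A] [Module K A] : ℕ → A → Prop
  | one (a : A) : InPow K A 1 a
  | mul {i j : ℕ} {a b : A} : InPow K A i a → InPow K A j b → InPow K A (i + j) (a * b)
  | zero (k : ℕ) : InPow K A k 0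
  | add {k : ℕ} {a b : A} : InPow K A k a → InPow K A k b → InPow K A k (a + b)
  | smul {k : ℕ} (c : K) {a : A} : InPow K A k a → InPow K A k (c • a)

/-- `A^n = 0`. -/
def NilpotentOfIndex (K : Type u) [Field K] (n : ℕ) (A : Type u) [NonUnitalRing A] [Module K A] :
    Prop :=
  ∀ a : A, InPow K A n a → a = 0

variable {K : Type u} [Field K]

lemma map_inPow {A B : Type u} [NonUnitalRing A] [Module K A] [NonUnitalRing B] [Module K B]
    (f : A →ₙₐ[K] B) {k : ℕ} {a : A} (h : InPow K A k a) : InPow K B k (f a) := by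
  induction h with
  | one a => exact .one _
  | mul _ _ h1 h2 => rw [map_mul]; exact .mul h1 h2
  | zero k => rw [map_zero]; exact .zero _
  | add _ _ h1 h2 => rw [map_add]; exact .add h1 h2
  | smul c _ h => rw [map_smul]; exact .smul c h

lemma T3_pow {k : ℕ} {a : T3 K} (h : InPow K (T3 K) k a) :
    (k = 0 → a = 0) ∧ (2 ≤ k → T3.p1 a = 0 ∧ T3.p2 a = 0) ∧ (3 ≤ k → a = 0) := by
  induction h with
  | one a => exact ⟨by omega, by omega, by omega⟩
  | @mul i j a b _ _ h1 h2 =>
    refine ⟨fun h => by rw [h1.1 (by omega), zero_mul], fun _ => ⟨rfl, rfl⟩, fun h => ?_⟩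
    refine T3.ext' (by simp) (by simp) ?_
    rcases (by omega : 2 ≤ i ∨ 2 ≤ j) with h | h
    · simp [(h1.2.1 h).1]
    · simp [(h2.2.1 h).2]
  | zero k => simp
  | add _ _ h1 h2 =>
    refine ⟨fun h => by rw [h1.1 h, h2.1 h, add_zero], fun h => ?_,
      fun h => by rw [h1.2.2 h, h2.2.2 h, add_zero]⟩
    simp [(h1.2.1 h).1, (h1.2.1 h).2, (h2.2.1 h).1, (h2.2.1 h).2]
  | smul c _ h1 =>
    refine ⟨fun h => by rw [h1.1 h, smul_zero], fun h => ?_,
      fun h => by rw [h1.2.2 h, smul_zero]⟩
    simp [(h1.2.1 h).1, (h1.2.1 h).2]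

lemma F_inPow {A : Type u} [NonUnitalRing A] [Module K A] [IsScalarTower K A A]
    [SMulCommClass K A A] (k : ℕ) : ∀ a ∈ F (LinearMap.mul K A) k, InPow K A (k + 1) a := by
  induction k with
  | zero => exact fun a _ => .one a
  | succ k ih =>
    let M : Submodule K A :=
      { carrier := {a | InPow K A (k + 1 + 1) a}
        add_mem' := fun ha hb => .add ha hb
        zero_mem' := .zero _
        smul_mem' := fun c _ ha => .smul c ha }
    have : Submodule.map₂ (LinearMap.mul K A) ⊤ (F (LinearMap.mul K A) k) ≤ M := by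
      rw [Submodule.map₂_le]
      intro a _ b hb
      have := InPow.mul (InPow.one (K := K) a) (ih b hb)
      rw [show 1 + (k + 1) = k + 1 + 1 by ring] at this
      exact this
    exact fun a ha => this ha

theorem result (K : Type u) [Field K] (n r : ℕ) (hn : 1 ≤ n)
    (A : Type u) [NonUnitalRing A] [Module K A] [IsScalarTower K A A] [SMulCommClass K A A]
    (y : Fin r → A) (hA : IsFreeIn K (NilpotentOfIndex K n) A y) :
    Homogeneous K A (fun a b => a * b) := by
  have hP : NilpotentOfIndex K n A := hA.1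
  by_cases h3 : 3 ≤ n
  · refine assoc_homog hA (fun S a ha => ?_) (N := n - 1) ?_ (fun a ha => (T3_pow ha).2.2 h3)
    · exact Subtype.ext (hP _ (map_inPow (NonUnitalSubalgebraClass.subtype S) ha))
    · rw [eq_bot_iff]
      intro a ha
      have := F_inPow _ a ha
      rw [show n - 1 + 1 = n by omega] at this
      exact hP a this
  · apply homogeneous_zero
    intro a b
    rcases (by omega : n = 1 ∨ n = 2) with rfl | rfl
    · exact hP _ (.one _)
    · exact hP _ (InPow.mul (.one a) (.one b))

end Pool.Agent.Results.MP_3d7de8_lc.Nilpotent
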