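import Pool.Agent.Lib.helper20.AssocHomog

namespace Pool.Agent.Results.MP_3d7de8_lc.Solvable

open Pool.Agent.Lib.helper20.AlgHomog

universe u

/-- The derived series: `A^(0) = A`, and `A^(k+1)` is the `K`-span of the products of two
elements of `A^(k)`. -/
def derived (K A : Type u) [Field K] [NonUnitalRing A] [Module K A] : ℕ → Submodule K A
  | 0 => ⊤
  | k + 1 => Submodule.span K {x | ∃ a ∈ derived K A k, ∃ b ∈ derived K A k, x = a * b}

/-- `A^(n) = 0`. -/
def SolvableOfLength (K : Type u) [Field K] (n : ℕ) (A : Type u) [NonUnitalRing A] [Module K A] :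
    Prop :=
  derived K A n = ⊥

variable {K : Type u} [Field K]

lemma map_derived {A B : Type u} [NonUnitalRing A] [Module K A] [NonUnitalRing B] [Module K B]
    (f : A →ₙₐ[K] B) (k : ℕ) : ∀ a ∈ derived K A k, f a ∈ derived K B k := by
  induction k with
  | zero => exact fun a _ => Submodule.mem_top
  | succ k ih =>
    have : derived K A (k + 1) ≤ (derived K B (k + 1)).comap (f : A →ₗ[K] B) := by
      refine Submodule.span_le.2 ?_
      rintro _ ⟨a, ha, b, hb, rfl⟩
      exact Submodule.subset_span ⟨f a, ih a ha, f b, ih b hb, map_mul f a b⟩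
    exact fun a ha => this ha

lemma T3_der (k : ℕ) : derived K (T3 K) (k + 1) ≤ LinearMap.ker T3.p1 := by
  refine Submodule.span_le.2 ?_
  rintro _ ⟨a, -, b, -, rfl⟩
  simp

lemma T3_der2 (k : ℕ) : derived K (T3 K) (k + 2) = ⊥ := by
  rw [eq_bot_iff]
  refine Submodule.span_le.2 ?_
  rintro _ ⟨a, ha, b, -, rfl⟩
  have : T3.p1 a = 0 := T3_der k ha
  exact T3.ext' (by simp) (by simp) (by simp [this])

lemma F_der {A : Type u} [NonUnitalRing A] [Module K A] [IsScalarTower K A A]
    [SMulCommClass K A A] (k : ℕ) : F (LinearMap.mul K A) (2 ^ k - 1) ≤ derived K A k := by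
  induction k with
  | zero => exact le_top
  | succ k ih =>
    have h1 : 1 ≤ 2 ^ k := Nat.one_le_two_pow
    rw [show 2 ^ (k + 1) - 1 = (2 ^ k - 1) + (2 ^ k - 1) + 1 by rw [pow_succ]; omega]
    refine (F_add_le _ _).trans ?_
    rw [Submodule.map₂_le]
    intro a ha b hb
    exact Submodule.subset_span ⟨a, ih ha, b, ih hb, rfl⟩

theorem result (K : Type u) [Field K] (n r : ℕ) (hn : 1 ≤ n)
    (A : Type u) [NonUnitalRing A] [Module K A] [IsScalarTower K A A] [SMulCommClass K A A]
    (y : Fin r → A) (hA : IsFreeIn K (SolvableOfLength K n) A y) :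
    Homogeneous K A (fun a b => a * b) := by
  have hP : derived K A n = ⊥ := hA.1
  by_cases h2 : 2 ≤ n
  · refine assoc_homog hA (fun S => ?_) (N := 2 ^ n - 1) ?_ ?_
    · change derived K S n = ⊥
      rw [eq_bot_iff]
      intro a ha
      have := map_derived (NonUnitalSubalgebraClass.subtype S) n a ha
      rw [hP] at this
      exact Subtype.ext this
    · rw [eq_bot_iff, ← hP]
      exact F_der n
    · obtain ⟨k, rfl⟩ : ∃ k, n = k + 2 := ⟨n - 2, by omega⟩
      exact T3_der2 k
  · apply homogeneous_zero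
    intro a b
    obtain rfl : n = 1 := by omega
    have : a * b ∈ derived K A 1 :=
      Submodule.subset_span ⟨a, Submodule.mem_top, b, Submodule.mem_top, rfl⟩
    rwa [hP] at this

end Pool.Agent.Results.MP_3d7de8_lc.Solvable
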